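import Mathlib

/-!
MP_52f71e_al, case lambda = 1 (helper73's proof, Claim K, steps (iii) and (iv)): pure group theory.
-/

set_option autoImplicit false

namespace Pool.Agent.H55.LO

variable {M : Type*} [Group M]

/-- an element of odd order with trivial fourth power is trivial -/
theorem eq_one_of_pow_four {x : M} {n : ℕ} (hn : Odd n) (h1 : x ^ n = 1) (h2 : x ^ 4 = 1) :
    x = 1 := by
  have h3 : orderOf x ∣ n := orderOf_dvd_of_pow_eq_one h1
  have h4 : orderOf x ∣ 2 ^ 2 := orderOf_dvd_of_pow_eq_one h2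
  have h5 : Nat.Coprime n (2 ^ 2) := Nat.Coprime.pow_right 2 hn.coprime_two_right
  have h6 := Nat.dvd_gcd h3 h4
  rw [h5] at h6
  exact orderOf_eq_one_iff.1 (Nat.dvd_one.1 h6)

/-- a commuting element of odd order can be replaced by its square -/
theorem comm_of_sq_comm {b c : M} {n : ℕ} (hn : Odd n) (hb : b ^ n = 1)
    (h : c * (b * b) = (b * b) * c) : c * b = b * c := by
  obtain ⟨k, rfl⟩ := hn
  have h1 : Commute c (b ^ 2) := by
    show c * b ^ 2 = b ^ 2 * c
    rw [pow_two]
    exact h
  have h2 : b = ((b ^ 2) ^ k)⁻¹ := by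
    rw [pow_succ, pow_mul] at hb
    exact eq_inv_of_mul_eq_one_right hb
  have h3 : Commute c b := by
    rw [h2]
    exact (h1.pow_right k).inv_right
  exact h3.eq

/-- step (iii) -/
theorem nu_one {J ax bx au b bs nu z : M} {n : ℕ} (hn : Odd n)
    (hJJ : J * J = 1) (hax : ax * ax = 1) (hau : au * au = 1) (hbx : J * ax * J = bx)
    (hxc : ax * bx = bx * ax) (hz : ax * bx = z)
    (hbJ : J * b = b * J) (hzb : z * b * z = b⁻¹) (hbs : ax * b * ax = bs)
    (hbbs : b * bs = bs * b) (hJbs : J * bs * J = bs⁻¹)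
    (hnub : nu * b = b * nu) (hnubs : nu * bs = bs * nu) (hnux : nu * ax = ax * nu)
    (hnuJ : nu * J = J * nu) (hnun : nu ^ n = 1)
    (hB : au * (b * bs) * au = b * bs⁻¹ * nu)
    (hmu : au * (b * b * nu) = (b * b * nu) * au)
    (hm0 : (au * bx * (au * bx)) * b * (au * bx * (au * bx))⁻¹ = b⁻¹)
    (hX0b : (au * b * au) * b = b * (au * b * au))
    (hX0B : (au * b * au) * (b * bs) = (b * bs) * (au * b * au))
    (hJX0 : J * (au * b * au) * J = (au * b * au)⁻¹) : nu = 1 := by
  have iJ : J⁻¹ = J := inv_eq_of_mul_eq_one_left hJJ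
  have iax : ax⁻¹ = ax := inv_eq_of_mul_eq_one_left hax
  have iau : au⁻¹ = au := inv_eq_of_mul_eq_one_left hau
  have hbxx : bx * bx = 1 := by
    rw [← hbx]
    calc J * ax * J * (J * ax * J) = J * ax * (J * J) * ax * J := by group
      _ = J * (ax * ax) * J := by rw [hJJ]; group
      _ = 1 := by rw [hax, mul_one, hJJ]
  have ibx : bx⁻¹ = bx := inv_eq_of_mul_eq_one_left hbxx
  have hzz : z * z = 1 := by
    rw [← hz]
    calc ax * bx * (ax * bx) = ax * (bx * ax) * bx := by group
      _ = ax * (ax * bx) * bx := by rw [hxc]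
      _ = (ax * ax) * (bx * bx) := by group
      _ = 1 := by rw [hax, hbxx, mul_one]
  have iz : z⁻¹ = z := inv_eq_of_mul_eq_one_left hzz
  have hzx : z * ax = bx := by
    rw [← hz, hxc, mul_assoc, hax, mul_one]
  have hxz : ax * z = bx := by
    rw [← hz, ← mul_assoc, hax, one_mul]
  -- commutations
  obtain ⟨X, hX⟩ : ∃ X, X = au * b * au := ⟨_, rfl⟩
  rw [← hX] at hX0b hX0B hJX0
  have cXb : Commute X b := hX0b
  have cXs : Commute X bs := by
    have h1 : Commute X (b * bs) := hX0B
    have h2 : bs = b⁻¹ * (b * bs) := by group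
    rw [h2]
    exact cXb.inv_right.mul_right h1
  have cXn : Commute X nu := by
    have h0 : Commute b (b * b * nu) := by
      have : Commute b nu := (show nu * b = b * nu from hnub).symm
      exact ((Commute.refl b).mul_right (Commute.refl b)).mul_right this
    have h1 : Commute X (b * b * nu) := by
      have h2 : Commute au (b * b * nu) := hmu
      rw [hX]
      exact (h2.mul_left h0).mul_left h2
    have h2 : nu = (b * b)⁻¹ * (b * b * nu) := by group
    rw [h2]
    exact (cXb.mul_right cXb).inv_right.mul_right h1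
  have cbn : Commute b nu := (show nu * b = b * nu from hnub).symm
  have csn : Commute bs nu := (show nu * bs = bs * nu from hnubs).symm
  have cbs : Commute b bs := hbbs
  have cxn : Commute ax nu := (show nu * ax = ax * nu from hnux).symm
  have cJn : Commute J nu := (show nu * J = J * nu from hnuJ).symm
  -- Y
  obtain ⟨Y, hY⟩ : ∃ Y, Y = au * bs * au := ⟨_, rfl⟩
  have h1 : X * Y = b * bs⁻¹ * nu := by
    rw [hX, hY, ← hB]
    calc au * b * au * (au * bs * au) = au * b * (au * au) * bs * au := by group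
      _ = au * (b * bs) * au := by rw [hau]; group
  have hxbx : bx * b * bx = bs⁻¹ := by
    calc bx * b * bx = (ax * z) * b * (z * ax) := by rw [hxz, hzx]
      _ = ax * (z * b * z) * ax := by group
      _ = ax⁻¹ * b⁻¹ * ax⁻¹ := by rw [hzb, iax]
      _ = (ax * b * ax)⁻¹ := by group
      _ = bs⁻¹ := by rw [hbs]
  have h2 : Y = bx * X * bx := by
    have e1 : au * bx * au * (bx * b * bx) * au * bx * au = b⁻¹ := by
      rw [← hm0, mul_inv_rev, mul_inv_rev, iau, ibx]
      group
    rw [hxbx] at e1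
    have e2 : bx * (au * bs⁻¹ * au) * bx = au * b⁻¹ * au := by
      calc bx * (au * bs⁻¹ * au) * bx
          = au⁻¹ * (au * bx * au * bs⁻¹ * au * bx * au) * au⁻¹ := by group
        _ = au * b⁻¹ * au := by rw [e1, iau]
    have e3 : (au * bs⁻¹ * au) = Y⁻¹ := by
      rw [hY, mul_inv_rev, mul_inv_rev, iau]
      group
    have e4 : (au * b⁻¹ * au) = X⁻¹ := by
      rw [hX, mul_inv_rev, mul_inv_rev, iau]
      group
    rw [e3, e4] at e2
    calc Y = bx⁻¹ * (bx * Y⁻¹ * bx)⁻¹ * bx⁻¹ * (bx * bx) * (bx * bx) := by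
            rw [hbxx, mul_one, mul_one, mul_inv_rev, mul_inv_rev, inv_inv, ibx]
            calc Y = 1 * Y * 1 := by group
              _ = (bx * bx) * Y * (bx * bx) := by rw [hbxx]
              _ = _ := by group
      _ = bx * X * bx := by rw [e2, hbxx, inv_inv, ibx, mul_one, mul_one]
  have h4 : Y = X⁻¹ * (b * bs⁻¹ * nu) := by
    rw [← h1]
    group
  have hJb : J * b * J = b := by rw [hbJ, mul_assoc, hJJ, mul_one]
  have hJn : J * nu * J = nu := by rw [cJn.eq, mul_assoc, hJJ, mul_one]
  have hJY : J * Y * J = X * (b * bs * nu) := by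
    rw [h4]
    calc J * (X⁻¹ * (b * bs⁻¹ * nu)) * J
        = (J * X * J)⁻¹ * (J * J) * (J * b * J) * (J * bs * J)⁻¹ * (J * nu * J) := by
          rw [mul_inv_rev, mul_inv_rev, mul_inv_rev, mul_inv_rev, iJ]
          calc J * (X⁻¹ * (b * bs⁻¹ * nu)) * J
              = J * X⁻¹ * 1 * 1 * b * 1 * bs⁻¹ * 1 * nu * J := by group
            _ = J * X⁻¹ * (J * J) * (J * J) * b * (J * J) * bs⁻¹ * (J * J) * nu * J := by
                rw [hJJ]
            _ = _ := by group
      _ = X * (b * bs * nu) := by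
          rw [hJX0, hJb, hJbs, hJn, hJJ]
          group
  have hxX : ax * X * ax = (X * (b * bs * nu))⁻¹ := by
    have e1 : J * bx * J = ax := by
      rw [← hbx]
      calc J * (J * ax * J) * J = (J * J) * ax * (J * J) := by group
        _ = ax := by rw [hJJ]; group
    calc ax * X * ax = (J * bx * J) * X * (J * bx * J) := by rw [e1]
      _ = J * bx * (J * X * J) * bx * J := by group
      _ = J⁻¹ * bx⁻¹ * X⁻¹ * bx⁻¹ * J⁻¹ := by rw [hJX0, iJ, ibx]
      _ = (J * (bx * X * bx) * J)⁻¹ := by group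
      _ = _ := by rw [← h2, hJY]
  have hxn : ax * nu * ax = nu := by rw [cxn.eq, mul_assoc, hax, mul_one]
  have hxs : ax * bs * ax = b := by
    rw [← hbs]
    calc ax * (ax * b * ax) * ax = (ax * ax) * b * (ax * ax) := by group
      _ = b := by rw [hax]; group
  have h5 : z * X * z = X * (bs * bs * (nu * nu)) := by
    have e1 : z * X * z = ax * Y * ax := by
      rw [h2]
      calc z * X * z = (ax * bx) * X * (bx * ax) := by rw [← hxc, hz]
        _ = _ := by group
    have e2 : ax * (b * bs⁻¹ * nu) * ax = bs * b⁻¹ * nu := by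
      calc ax * (b * bs⁻¹ * nu) * ax
          = ax * b * 1 * bs⁻¹ * 1 * nu * ax := by group
        _ = ax * b * (ax * ax) * bs⁻¹ * (ax * ax) * nu * ax := by rw [hax]
        _ = (ax * b * ax) * (ax⁻¹ * bs⁻¹ * ax⁻¹) * (ax * nu * ax) := by rw [iax]; group
        _ = (ax * b * ax) * (ax * bs * ax)⁻¹ * (ax * nu * ax) := by group
        _ = _ := by rw [hbs, hxs, hxn]
    have e3 : ax * Y * ax = (ax * X * ax)⁻¹ * (ax * (b * bs⁻¹ * nu) * ax) := by
      rw [h4, mul_inv_rev, mul_inv_rev, iax]
      calc ax * (X⁻¹ * (b * bs⁻¹ * nu)) * ax = ax * X⁻¹ * 1 * (b * bs⁻¹ * nu) * ax := by group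
        _ = ax * X⁻¹ * (ax * ax) * (b * bs⁻¹ * nu) * ax := by rw [hax]
        _ = _ := by group
    rw [e1, e3, hxX, e2, inv_inv]
    have e4 : Commute nu bs := csn.symm
    have e5 : Commute (bs * nu * bs) b⁻¹ :=
      ((cbs.symm.mul_left cbn.symm).mul_left cbs.symm).inv_right
    calc X * (b * bs * nu) * (bs * b⁻¹ * nu) = X * b * ((bs * nu * bs) * b⁻¹) * nu := by group
      _ = X * b * (b⁻¹ * (bs * nu * bs)) * nu := by rw [e5.eq]
      _ = X * (bs * (nu * bs) * nu) := by group
      _ = X * (bs * (bs * nu) * nu) := by rw [e4.eq]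
      _ = _ := by group
  have hzs : z * bs * z = bs⁻¹ := by
    calc z * bs * z = (z * ax) * b * (ax * z) := by rw [← hbs]; group
      _ = bs⁻¹ := by rw [hzx, hxz, hxbx]
  have hzn : z * nu * z = nu := by
    have e1 : Commute bx nu := by
      rw [← hbx]
      exact (cJn.mul_left cxn).mul_left cJn
    have e2 : Commute z nu := by
      rw [← hz]
      exact cxn.mul_left e1
    rw [e2.eq, mul_assoc, hzz, mul_one]
  have h6 : X = X * (nu * nu * (nu * nu)) := by
    have e1 : X = z * (z * X * z) * z := by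
      calc X = (z * z) * X * (z * z) := by rw [hzz]; group
        _ = _ := by group
    have e2 : z * (X * (bs * bs * (nu * nu))) * z =
        (z * X * z) * ((z * bs * z) * (z * bs * z) * ((z * nu * z) * (z * nu * z))) := by
      calc z * (X * (bs * bs * (nu * nu))) * z
          = z * X * 1 * bs * 1 * bs * 1 * nu * 1 * nu * z := by group
        _ = z * X * (z * z) * bs * (z * z) * bs * (z * z) * nu * (z * z) * nu * z := by rw [hzz]
        _ = _ := by group
    rw [h5, e2, h5, hzs, hzn] at e1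
    have e3 : Commute (bs * bs) (nu * nu) := (csn.mul_left csn).mul_right (csn.mul_left csn)
    calc X = X * (bs * bs * (nu * nu)) * (bs⁻¹ * bs⁻¹ * (nu * nu)) := e1
      _ = X * ((nu * nu) * (bs * bs)) * (bs⁻¹ * bs⁻¹ * (nu * nu)) := by rw [e3.eq]
      _ = _ := by group
  have h7 : nu ^ 4 = 1 := by
    have e1 : nu * nu * (nu * nu) = 1 := (mul_eq_left.1 h6.symm)
    calc nu ^ 4 = nu * nu * (nu * nu) := by rw [pow_succ, pow_succ, pow_two]; group
      _ = 1 := e1
  exact eq_one_of_pow_four hn hnun h7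

/-- step (iv) -/
theorem b_one {J au bu b : M} {n : ℕ} (hn : Odd n) (hbn : b ^ n = 1) (hbJ : J * b = b * J)
    (hbu : J * au * J = bu) (hmu : au * (b * b) = (b * b) * au)
    (hu : (au * bu) * b * (au * bu)⁻¹ = b⁻¹) : b = 1 := by
  have h1 : Commute au b := comm_of_sq_comm hn hbn hmu
  have h2 : Commute J b := hbJ
  have h3 : Commute (au * bu) b := by
    rw [← hbu]
    exact h1.mul_left ((h2.mul_left h1).mul_left h2)
  rw [h3.eq, mul_assoc, mul_inv_cancel, mul_one] at hu
  have h4 : b ^ 2 = 1 := by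
    rw [pow_two]
    nth_rewrite 2 [hu]
    exact mul_inv_cancel b
  refine eq_one_of_pow_four hn hbn ?_
  calc b ^ 4 = (b ^ 2) ^ 2 := by group
    _ = 1 := by rw [h4, one_pow]

end Pool.Agent.H55.LO
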